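import Mathlib

/-!
Trilinear forms: smooth divisors of type (1,1,1) in the threefold product of the projective plane.
Definitions and statements of the parts.
-/

namespace Pool.Agent.W978.QN

/-- The value at `P` of the trilinear form with integer coefficients `a`
(`P i` is the vector of homogeneous coordinates of the `i`-th point). -/
def tf {R : Type*} [CommRing R] (a : (Fin 3 → Fin 3) → ℤ) (P : Fin 3 → Fin 3 → R) : R :=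
  ∑ e : Fin 3 → Fin 3, (a e : R) * ∏ i, P i (e i)

/-- The standard basis vectors. -/
def bv {R : Type*} [CommRing R] (j : Fin 3) : Fin 3 → R := Pi.single j 1

/-- The `3 × 3` matrix of the bilinear form which the trilinear form becomes in its `k`-th and
`l`-th argument, when the other argument is that of `P`. -/
def mt {R : Type*} [CommRing R] (a : (Fin 3 → Fin 3) → ℤ) (k l : Fin 3)
    (P : Fin 3 → Fin 3 → R) : Matrix (Fin 3) (Fin 3) R :=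
  Matrix.of fun u v => tf a (Function.update (Function.update P k (bv u)) l (bv v))

/-- The divisor is smooth: at no point of it (over the complex numbers) do all partial
derivatives vanish. -/
def Smooth (a : (Fin 3 → Fin 3) → ℤ) : Prop :=
  ∀ P : Fin 3 → Fin 3 → ℂ, (∀ i, P i ≠ 0) → tf a P = 0 →
    ∃ i, ∃ v, tf a (Function.update P i v) ≠ 0

/-- The open set. -/
def InU {R : Type*} [CommRing R] (a : (Fin 3 → Fin 3) → ℤ) (P : Fin 3 → Fin 3 → R) : Prop :=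
  ∀ k l, k ≠ l → (mt a k l P).det ≠ 0

/-- The value of the trilinear form with curried coefficients. -/
def cf {R : Type*} [CommRing R] (b : Fin 3 → Fin 3 → Fin 3 → R) (p q r : Fin 3 → R) : R :=
  ∑ i, ∑ j, ∑ k, b i j k * p i * q j * r k

/-- Curried coefficients, arguments in the order given by the permutation. -/
def cu (a : (Fin 3 → Fin 3) → ℤ) (σ : Equiv.Perm (Fin 3)) (i j k : Fin 3) : ℤ :=
  a (fun m => (![i, j, k] : Fin 3 → Fin 3) (σ.symm m))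

/-- The matrix of the bilinear form in the last two arguments (rows: third argument). -/
def mp {R : Type*} [CommRing R] (b : Fin 3 → Fin 3 → Fin 3 → ℤ) (p : Fin 3 → R)
    (k j : Fin 3) : R :=
  ∑ i, (b i j k : R) * p i

/-- The `2 × 2` minors (rows `k, k'`, columns `j, j'`). -/
def mnr {R : Type*} [CommRing R] (M : Fin 3 → Fin 3 → R) (k k' j j' : Fin 3) : R :=
  M k j * M k' j' - M k j' * M k' j

/-- Matrix times vector. -/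
def wv (M : Fin 3 → Fin 3 → ℤ) (q : Fin 3 → ℤ) (k : Fin 3) : ℤ := ∑ j, M k j * q j

/-- Primitive vectors: the coordinates are coprime (Bezout form). -/
def Prim (v : Fin 3 → ℤ) : Prop := ∃ u : Fin 3 → ℤ, ∑ i, u i * v i = 1

/-- Sup norm. -/
def nm (v : Fin 3 → ℤ) : ℤ := max (max |v 0| |v 1|) |v 2|

/-- Content. -/
def ct (v : Fin 3 → ℤ) : ℕ := Nat.gcd (Int.gcd (v 0) (v 1)) (v 2).natAbs

/-- Vectors in the box of size `X`. -/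
noncomputable def bx (X : ℕ) : Finset (Fin 3 → ℤ) :=
  Fintype.piFinset fun _ => Finset.Icc (-(X : ℤ)) X

/-- Cross product. -/
def cp (q q' : Fin 3 → ℤ) : Fin 3 → ℤ :=
  ![q 1 * q' 2 - q 2 * q' 1, q 2 * q' 0 - q 0 * q' 2, q 0 * q' 1 - q 1 * q' 0]

/-- QN-BR: passage to curried coefficients. -/
def S_BR : Prop := ∀ (R : Type) [CommRing R] (a : (Fin 3 → Fin 3) → ℤ) (σ : Equiv.Perm (Fin 3))
  (P : Fin 3 → Fin 3 → R),
  tf a P = cf (fun i j k => (cu a σ i j k : R)) (P (σ 0)) (P (σ 1)) (P (σ 2))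

/-- The rank condition: all matrices have rank at least two. -/
def Rk2 (b : Fin 3 → Fin 3 → Fin 3 → ℤ) : Prop :=
  ∀ p : Fin 3 → ℂ, p ≠ 0 → ∃ k k' j j', mnr (mp b p) k k' j j' ≠ 0

/-- QN-RK. -/
def S_RK : Prop := ∀ a : (Fin 3 → Fin 3) → ℤ, Smooth a → ∀ σ : Equiv.Perm (Fin 3),
  Rk2 (cu a σ)

/-- QN-CMP (compactness). -/
def S_CMP : Prop := ∀ b : Fin 3 → Fin 3 → Fin 3 → ℤ, Rk2 b → ∃ c : ℝ, 0 < c ∧
  ∀ p : Fin 3 → ℤ, ∃ k k' j j', c * (nm p : ℝ) ^ 2 ≤ |((mnr (mp b p) k k' j j' : ℤ) : ℝ)|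

/-- QN-NUL (Nullstellensatz). -/
def S_NUL : Prop := ∀ b : Fin 3 → Fin 3 → Fin 3 → ℤ, Rk2 b → ∃ K : ℕ, 1 ≤ K ∧
  ∀ p : Fin 3 → ℤ, Prim p → ∀ g z : ℤ, (∀ k k' j j', g ∣ mnr (mp b p) k k' j j' * z) →
    g ∣ (K : ℤ) * z

/-- QN-DET. -/
def S_DET : Prop := ∀ a : (Fin 3 → Fin 3) → ℤ, Smooth a → ∀ k l, k ≠ l →
  ∃ P : Fin 3 → Fin 3 → ℂ, (mt a k l P).det ≠ 0

/-- QN-PT. -/
def S_PT : Prop := ∀ a : (Fin 3 → Fin 3) → ℤ,
  (∀ k l, k ≠ l → ∃ P : Fin 3 → Fin 3 → ℂ, (mt a k l P).det ≠ 0) →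
  ∃ P : Fin 3 → Fin 3 → ℂ, (∀ i, P i ≠ 0) ∧ tf a P = 0 ∧ InU a P

open Classical in
/-- QN-R: primitive vectors on a plane. -/
def S_R : Prop := ∀ (w : Fin 3 → ℤ), w ≠ 0 → ∀ R : ℕ, 1 ≤ R →
  (((bx R).filter fun r => Prim r ∧ ∑ k, w k * r k = 0).card : ℝ) ≤
    4 + 8 * (R : ℝ) ^ 2 * ct w / nm w

/-- QN-CD: divisibility of the cross product. -/
def S_CD : Prop := ∀ (M : Fin 3 → Fin 3 → ℤ) (g : ℤ) (q q' : Fin 3 → ℤ),
  (∀ k, g ∣ wv M q k) → (∀ k, g ∣ wv M q' k) →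
  ∀ k k' j j' c, g ∣ mnr M k k' j j' * cp q q' c

/-- QN-QA: vectors in a thin tube. -/
def S_QA : Prop := ∀ (A K : ℕ) (c : ℝ), 1 ≤ A → 1 ≤ K → 0 < c → ∃ C : ℝ, 0 < C ∧
  ∀ (M : Fin 3 → Fin 3 → ℤ) (X₁ X₂ Y g : ℕ), 1 ≤ X₁ → 1 ≤ X₂ → 1 ≤ g → g ≤ Y →
  Y ≤ A * X₁ * X₂ → (∀ k j, |M k j| ≤ A * X₁) →
  (∃ k k' j j', c * (X₁ : ℝ) ^ 2 ≤ |((mnr M k k' j j' : ℤ) : ℝ)|) →
  ∀ Q : Finset (Fin 3 → ℤ), (∀ q ∈ Q, Prim q ∧ nm q ≤ X₂ ∧ ∀ k, |wv M q k| ≤ Y) →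
  (∀ q ∈ Q, ∀ q' ∈ Q, ∀ i, (g : ℤ) ∣ K * cp q q' i) →
  (Q.card : ℝ) ≤ C * (Nat.log 2 X₂ + 1) * (1 + Y * X₂ / (X₁ * g)) ^ 2

/-- QN-QB: vectors in a thick tube. -/
def S_QB : Prop := ∀ (A K : ℕ) (c : ℝ), 1 ≤ A → 1 ≤ K → 0 < c → ∃ C : ℝ, 0 < C ∧
  ∀ (M : Fin 3 → Fin 3 → ℤ) (X₁ X₂ Y g : ℕ), 1 ≤ X₁ → 1 ≤ X₂ → 1 ≤ g → g * X₁ ≤ Y →
  Y ≤ A * X₁ * X₂ → (∀ k j, |M k j| ≤ A * X₁) →
  (∃ k k' j j', c * (X₁ : ℝ) ^ 2 ≤ |((mnr M k k' j j' : ℤ) : ℝ)|) →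
  ∀ Q : Finset (Fin 3 → ℤ), (∀ q ∈ Q, Prim q ∧ nm q ≤ X₂ ∧ ∀ k, |wv M q k| ≤ Y) →
  (∀ q ∈ Q, ∀ q' ∈ Q, ∀ i, (g : ℤ) ∣ K * cp q q' i) →
  (Q.card : ℝ) ≤ C * g.divisors.card * ((Y : ℝ) ^ 2 * X₂ / ((X₁ : ℝ) ^ 2 * g))

end Pool.Agent.W978.QN
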