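import Mathlib
import Pool.Agent.W978.QM.Bas
import Pool.Agent.W978.QN.Stm

/-! The count in a dyadic box (three projective planes). -/

namespace Pool.Agent.W978.QN

open Finset

theorem mem_bx {X : ℕ} {v : Fin 3 → ℤ} : v ∈ bx X ↔ nm v ≤ X := by
  unfold bx nm
  rw [Fintype.mem_piFinset, max_le_iff, max_le_iff, abs_le, abs_le, abs_le]
  simp only [Fin.forall_fin_succ, mem_Icc]
  constructor
  · rintro ⟨h0, h1, h2, -⟩
    exact ⟨⟨h0, h1⟩, h2⟩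
  · rintro ⟨⟨h0, h1⟩, h2⟩
    exact ⟨h0, h1, h2, fun i => i.elim0⟩

theorem card_bx_le {X : ℕ} (hX : 1 ≤ X) : ((bx X).card : ℝ) ≤ 27 * (X : ℝ) ^ 3 := by
  have hX' : (1 : ℝ) ≤ X := by exact_mod_cast hX
  have h : (bx X).card = (2 * X + 1) ^ 3 := by
    unfold bx
    rw [Fintype.card_piFinset]
    simp only [Int.card_Icc, Fin.prod_univ_three]
    have : ((X : ℤ) + 1 - -(X : ℤ)).toNat = 2 * X + 1 := by omega
    rw [this]; ring
  rw [h]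
  push_cast
  have h3 : (2 * (X : ℝ) + 1) ≤ 3 * X := by linarith
  calc (2 * (X : ℝ) + 1) ^ 3 ≤ (3 * (X : ℝ)) ^ 3 := by gcongr
    _ = 27 * (X : ℝ) ^ 3 := by ring

theorem le_nm (v : Fin 3 → ℤ) (i : Fin 3) : |v i| ≤ nm v := by
  unfold nm
  fin_cases i
  · exact le_trans (le_max_left _ _) (le_max_left _ _)
  · exact le_trans (le_max_right _ _) (le_max_left _ _)
  · exact le_max_right _ _

theorem nm_le {v : Fin 3 → ℤ} {Z : ℤ} (h : ∀ i, |v i| ≤ Z) : nm v ≤ Z :=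
  max_le (max_le (h 0) (h 1)) (h 2)

theorem nm_pos_of_ne {v : Fin 3 → ℤ} (h : v ≠ 0) : 1 ≤ nm v := by
  by_contra hc
  push Not at hc
  apply h
  funext i
  have := le_nm v i
  exact abs_eq_zero.1 (le_antisymm (by omega) (abs_nonneg _))

theorem prim_ne_zero {v : Fin 3 → ℤ} (h : Prim v) : v ≠ 0 := by
  rintro rfl
  obtain ⟨u, hu⟩ := h
  simp at hu

theorem nm_pos {v : Fin 3 → ℤ} (h : Prim v) : 1 ≤ nm v := nm_pos_of_ne (prim_ne_zero h)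

theorem prim_dvd {v : Fin 3 → ℤ} (h : Prim v) {g c : ℤ} (h0 : ∀ i, g ∣ c * v i) : g ∣ c := by
  obtain ⟨u, hu⟩ := h
  have : c = ∑ i, u i * (c * v i) := by
    calc c = c * ∑ i, u i * v i := by rw [hu, mul_one]
      _ = ∑ i, u i * (c * v i) := by
          rw [Finset.mul_sum]
          exact Finset.sum_congr rfl fun i _ => by ring
  rw [this]
  exact Finset.dvd_sum fun i _ => Dvd.dvd.mul_left (h0 i) _

theorem ct_dvd (v : Fin 3 → ℤ) (i : Fin 3) : (ct v : ℤ) ∣ v i := by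
  have h0 : ct v ∣ Int.gcd (v 0) (v 1) := Nat.gcd_dvd_left _ _
  have h1 : ct v ∣ (v 2).natAbs := Nat.gcd_dvd_right _ _
  have h0' : (ct v : ℤ) ∣ (Int.gcd (v 0) (v 1) : ℤ) := by exact_mod_cast h0
  have h1' : (ct v : ℤ) ∣ v 2 := Int.natCast_dvd.2 h1
  fin_cases i
  · exact h0'.trans (Int.gcd_dvd_left _ _)
  · exact h0'.trans (Int.gcd_dvd_right _ _)
  · exact h1'

theorem ct_le_nm {v : Fin 3 → ℤ} (h : v ≠ 0) : 1 ≤ ct v ∧ (ct v : ℤ) ≤ nm v := by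
  have h1 : ∃ i, v i ≠ 0 := by
    by_contra hc
    push Not at hc
    exact h (funext hc)
  obtain ⟨i, hi⟩ := h1
  have h2 : (ct v : ℤ) ≠ 0 := by
    intro h0
    have := ct_dvd v i
    rw [h0, zero_dvd_iff] at this
    exact hi this
  have h3 : (ct v : ℤ) ≤ |v i| := Int.le_of_dvd (abs_pos.2 hi) ((dvd_abs _ _).2 (ct_dvd v i))
  refine ⟨?_, h3.trans (le_nm v i)⟩
  have : ct v ≠ 0 := by exact_mod_cast h2
  omega

/-- A bound for the coefficients. -/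
def mxb (b : Fin 3 → Fin 3 → Fin 3 → ℤ) : ℕ := 1 + ∑ i, ∑ j, ∑ k, (b i j k).natAbs

theorem le_mxb (b : Fin 3 → Fin 3 → Fin 3 → ℤ) (i j k : Fin 3) :
    |b i j k| ≤ (mxb b : ℤ) := by
  have h1 : (b i j k).natAbs ≤ ∑ k, (b i j k).natAbs :=
    Finset.single_le_sum (f := fun k => (b i j k).natAbs) (fun _ _ => Nat.zero_le _)
      (mem_univ k)
  have h2 : ∑ k, (b i j k).natAbs ≤ ∑ j, ∑ k, (b i j k).natAbs :=
    Finset.single_le_sum (f := fun j => ∑ k, (b i j k).natAbs) (fun _ _ => Nat.zero_le _)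
      (mem_univ j)
  have h3 : ∑ j, ∑ k, (b i j k).natAbs ≤ ∑ i, ∑ j, ∑ k, (b i j k).natAbs :=
    Finset.single_le_sum (f := fun i => ∑ j, ∑ k, (b i j k).natAbs) (fun _ _ => Nat.zero_le _)
      (mem_univ i)
  have h5 : (b i j k).natAbs ≤ mxb b := by unfold mxb; omega
  rw [Int.abs_eq_natAbs]
  exact_mod_cast h5

theorem abs_sum3 (f : Fin 3 → ℤ) (Z : ℤ) (h : ∀ i, |f i| ≤ Z) : |∑ i, f i| ≤ 3 * Z := by
  calc |∑ i, f i| ≤ ∑ i, |f i| := Finset.abs_sum_le_sum_abs _ _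
    _ ≤ ∑ _i : Fin 3, Z := Finset.sum_le_sum fun i _ => h i
    _ = 3 * Z := by simp

theorem mp_le (b : Fin 3 → Fin 3 → Fin 3 → ℤ) {p : Fin 3 → ℤ} {X : ℕ}
    (hp : p ∈ bx X) (k j : Fin 3) : |mp b p k j| ≤ 3 * mxb b * X := by
  rw [mem_bx] at hp
  unfold mp
  rw [mul_assoc]
  apply abs_sum3
  intro i
  rw [abs_mul]
  have h1 := le_mxb b i j k
  have h2 : |p i| ≤ X := (le_nm p i).trans hp
  simp only [Int.cast_id]
  gcongr

theorem wv_le (b : Fin 3 → Fin 3 → Fin 3 → ℤ) {p q : Fin 3 → ℤ} {X Y : ℕ}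
    (hp : p ∈ bx X) (hq : q ∈ bx Y) (k : Fin 3) : |wv (mp b p) q k| ≤ 9 * mxb b * X * Y := by
  rw [mem_bx] at hq
  unfold wv
  have : (9 * mxb b * X * Y : ℤ) = 3 * ((3 * mxb b * X) * Y) := by ring
  rw [this]
  apply abs_sum3
  intro j
  rw [abs_mul]
  have h1 := mp_le b hp k j
  have h2 : |q j| ≤ Y := (le_nm q j).trans hq
  gcongr

/-- The determinant of the matrix. -/
def dm (M : Fin 3 → Fin 3 → ℤ) : ℤ := (Matrix.of M).det

theorem dm_eq (M : Fin 3 → Fin 3 → ℤ) : dm M =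
    M 0 0 * M 1 1 * M 2 2 - M 0 0 * M 1 2 * M 2 1 - M 0 1 * M 1 0 * M 2 2 +
      M 0 1 * M 1 2 * M 2 0 + M 0 2 * M 1 0 * M 2 1 - M 0 2 * M 1 1 * M 2 0 := by
  unfold dm
  rw [Matrix.det_fin_three]
  simp only [Matrix.of_apply]

theorem dm_le {M : Fin 3 → Fin 3 → ℤ} {Z : ℤ} (hZ : 0 ≤ Z) (h : ∀ k j, |M k j| ≤ Z) :
    |dm M| ≤ 6 * Z ^ 3 := by
  have h3 : ∀ a b c a' b' c' : Fin 3, |M a a' * M b b' * M c c'| ≤ Z ^ 3 := by
    intro a b c a' b' c'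
    rw [abs_mul, abs_mul]
    calc |M a a'| * |M b b'| * |M c c'| ≤ Z * Z * Z := by
          gcongr
          · exact h _ _
          · exact h _ _
          · exact h _ _
      _ = Z ^ 3 := by ring
  have e1 := abs_le.1 (h3 0 1 2 0 1 2)
  have e2 := abs_le.1 (h3 0 1 2 0 2 1)
  have e3 := abs_le.1 (h3 0 1 2 1 0 2)
  have e4 := abs_le.1 (h3 0 1 2 1 2 0)
  have e5 := abs_le.1 (h3 0 1 2 2 0 1)
  have e6 := abs_le.1 (h3 0 1 2 2 1 0)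
  rw [dm_eq, abs_le]
  constructor <;> linarith [e1.1, e1.2, e2.1, e2.2, e3.1, e3.2, e4.1, e4.2, e5.1, e5.2, e6.1, e6.2]

/-- The content of `M q` divides the determinant, for primitive `q`. -/
theorem dvd_dm {M : Fin 3 → Fin 3 → ℤ} {q : Fin 3 → ℤ} (hq : Prim q) {g : ℤ}
    (h : ∀ k, g ∣ wv M q k) : g ∣ dm M := by
  apply prim_dvd hq
  intro i
  have e0 := h 0
  have e1 := h 1
  have e2 := h 2
  unfold wv at e0 e1 e2
  simp only [Fin.sum_univ_three] at e0 e1 e2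
  rw [dm_eq]
  fin_cases i
  · have := dvd_add (dvd_add (Dvd.dvd.mul_left e0 (M 1 1 * M 2 2 - M 1 2 * M 2 1))
      (Dvd.dvd.mul_left e1 (M 0 2 * M 2 1 - M 0 1 * M 2 2)))
      (Dvd.dvd.mul_left e2 (M 0 1 * M 1 2 - M 0 2 * M 1 1))
    have e : (M 0 0 * M 1 1 * M 2 2 - M 0 0 * M 1 2 * M 2 1 - M 0 1 * M 1 0 * M 2 2 +
      M 0 1 * M 1 2 * M 2 0 + M 0 2 * M 1 0 * M 2 1 - M 0 2 * M 1 1 * M 2 0) * q 0 =
      (M 1 1 * M 2 2 - M 1 2 * M 2 1) * (M 0 0 * q 0 + M 0 1 * q 1 + M 0 2 * q 2) +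
      (M 0 2 * M 2 1 - M 0 1 * M 2 2) * (M 1 0 * q 0 + M 1 1 * q 1 + M 1 2 * q 2) +
      (M 0 1 * M 1 2 - M 0 2 * M 1 1) * (M 2 0 * q 0 + M 2 1 * q 1 + M 2 2 * q 2) := by ring
    change g ∣ _ * q 0
    rw [e]
    exact this
  · have := dvd_add (dvd_add (Dvd.dvd.mul_left e0 (M 1 2 * M 2 0 - M 1 0 * M 2 2))
      (Dvd.dvd.mul_left e1 (M 0 0 * M 2 2 - M 0 2 * M 2 0)))
      (Dvd.dvd.mul_left e2 (M 0 2 * M 1 0 - M 0 0 * M 1 2))
    have e : (M 0 0 * M 1 1 * M 2 2 - M 0 0 * M 1 2 * M 2 1 - M 0 1 * M 1 0 * M 2 2 +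
      M 0 1 * M 1 2 * M 2 0 + M 0 2 * M 1 0 * M 2 1 - M 0 2 * M 1 1 * M 2 0) * q 1 =
      (M 1 2 * M 2 0 - M 1 0 * M 2 2) * (M 0 0 * q 0 + M 0 1 * q 1 + M 0 2 * q 2) +
      (M 0 0 * M 2 2 - M 0 2 * M 2 0) * (M 1 0 * q 0 + M 1 1 * q 1 + M 1 2 * q 2) +
      (M 0 2 * M 1 0 - M 0 0 * M 1 2) * (M 2 0 * q 0 + M 2 1 * q 1 + M 2 2 * q 2) := by ring
    change g ∣ _ * q 1
    rw [e]
    exact this
  · have := dvd_add (dvd_add (Dvd.dvd.mul_left e0 (M 1 0 * M 2 1 - M 1 1 * M 2 0))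
      (Dvd.dvd.mul_left e1 (M 0 1 * M 2 0 - M 0 0 * M 2 1)))
      (Dvd.dvd.mul_left e2 (M 0 0 * M 1 1 - M 0 1 * M 1 0))
    have e : (M 0 0 * M 1 1 * M 2 2 - M 0 0 * M 1 2 * M 2 1 - M 0 1 * M 1 0 * M 2 2 +
      M 0 1 * M 1 2 * M 2 0 + M 0 2 * M 1 0 * M 2 1 - M 0 2 * M 1 1 * M 2 0) * q 2 =
      (M 1 0 * M 2 1 - M 1 1 * M 2 0) * (M 0 0 * q 0 + M 0 1 * q 1 + M 0 2 * q 2) +
      (M 0 1 * M 2 0 - M 0 0 * M 2 1) * (M 1 0 * q 0 + M 1 1 * q 1 + M 1 2 * q 2) +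
      (M 0 0 * M 1 1 - M 0 1 * M 1 0) * (M 2 0 * q 0 + M 2 1 * q 1 + M 2 2 * q 2) := by ring
    change g ∣ _ * q 2
    rw [e]
    exact this

theorem wv_ne {M : Fin 3 → Fin 3 → ℤ} {q : Fin 3 → ℤ} (hM : dm M ≠ 0) (hq : Prim q) :
    wv M q ≠ 0 := by
  intro h
  have : (0 : ℤ) ∣ dm M := dvd_dm hq fun k => by rw [congrFun h k]; exact dvd_refl _
  exact hM (zero_dvd_iff.1 this)

open Classical in
/-- The sum over the second point. -/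
theorem sum_q (A K : ℕ) (hA : 1 ≤ A) (CA CB : ℝ) (hCA : 0 < CA) (hCB : 0 < CB)
    (M : Fin 3 → Fin 3 → ℤ) (X₁ X₂ : ℕ) (hX₁ : 1 ≤ X₁) (hX₂ : 1 ≤ X₂)
    (hdm : dm M ≠ 0)
    (hcd : ∀ (g : ℤ) (q q' : Fin 3 → ℤ), (∀ k, g ∣ wv M q k) → (∀ k, g ∣ wv M q' k) →
      ∀ i, g ∣ K * cp q q' i)
    (hwA : ∀ q ∈ bx X₂, ∀ k, 2 * |wv M q k| ≤ A * X₁ * X₂)
    (hQA : ∀ (Y g : ℕ), 1 ≤ g → g ≤ Y → Y ≤ A * X₁ * X₂ →
      ∀ Q : Finset (Fin 3 → ℤ), (∀ q ∈ Q, Prim q ∧ nm q ≤ X₂ ∧ ∀ k, |wv M q k| ≤ Y) →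
      (∀ q ∈ Q, ∀ q' ∈ Q, ∀ i, (g : ℤ) ∣ K * cp q q' i) →
      (Q.card : ℝ) ≤ CA * (Nat.log 2 X₂ + 1) * (1 + Y * X₂ / (X₁ * g)) ^ 2)
    (hQB : ∀ (Y g : ℕ), 1 ≤ g → g * X₁ ≤ Y → Y ≤ A * X₁ * X₂ →
      ∀ Q : Finset (Fin 3 → ℤ), (∀ q ∈ Q, Prim q ∧ nm q ≤ X₂ ∧ ∀ k, |wv M q k| ≤ Y) →
      (∀ q ∈ Q, ∀ q' ∈ Q, ∀ i, (g : ℤ) ∣ K * cp q q' i) →
      (Q.card : ℝ) ≤ CB * g.divisors.card * ((Y : ℝ) ^ 2 * X₂ / ((X₁ : ℝ) ^ 2 * g)))
    (E : ℝ) (hE : 1 ≤ E) (hE0 : ((Nat.log 2 X₂ : ℕ) : ℝ) + 1 ≤ E)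
    (hE1 : ((Nat.log 2 (A * X₁ * X₂) : ℕ) : ℝ) + 1 ≤ E)
    (hE2 : (((dm M).natAbs.divisors.card : ℕ) : ℝ) ≤ E)
    (hE3 : ∀ g : ℕ, g ∣ (dm M).natAbs → ((g.divisors.card : ℕ) : ℝ) ≤ E) :
    ∑ q ∈ (bx X₂).filter (fun q => Prim q), ((ct (wv M q) : ℝ) / (nm (wv M q) : ℝ)) ≤
    E ^ 3 * ((4 * CA + 2 * A * CB) * (1 + (X₂ : ℝ) ^ 2 / X₁)) := by
  set n := (dm M).natAbs with hndef
  have hn0 : n ≠ 0 := Int.natAbs_ne_zero.2 hdm
  set Q := (bx X₂).filter (fun q => Prim q) with hQ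
  have x1 : (1 : ℝ) ≤ X₁ := by exact_mod_cast hX₁
  have x2 : (1 : ℝ) ≤ X₂ := by exact_mod_cast hX₂
  have hct : ∀ q ∈ Q, ct (wv M q) ∈ n.divisors := by
    intro q hq
    rw [hQ, mem_filter] at hq
    rw [Nat.mem_divisors]
    refine ⟨?_, hn0⟩
    have h3 : (ct (wv M q) : ℤ) ∣ dm M := dvd_dm hq.2 fun k => ct_dvd _ k
    exact Int.natCast_dvd.1 h3
  have hnmle : ∀ q ∈ Q, 2 * nm (wv M q) ≤ A * X₁ * X₂ := by
    intro q hq
    rw [hQ, mem_filter] at hq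
    have h1 : ∀ k, |wv M q k| ≤ (A * X₁ * X₂ : ℤ) / 2 := fun k => by
      have := hwA q hq.1 k
      omega
    have := nm_le h1
    omega
  have hlog : ∀ q ∈ Q, Nat.log 2 (nm (wv M q)).toNat ∈ range (Nat.log 2 (A * X₁ * X₂) + 1) := by
    intro q hq
    rw [mem_range]
    have h0 := hnmle q hq
    have h1 : (nm (wv M q)).toNat ≤ A * X₁ * X₂ := by
      have h00 : (0 : ℤ) ≤ A * X₁ * X₂ := by positivity
      have : ((A * X₁ * X₂ : ℕ) : ℤ) = A * X₁ * X₂ := by push_cast; ring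
      omega
    have := Nat.log_mono_right (b := 2) h1
    omega
  have hmap : ∀ q ∈ Q, (ct (wv M q), Nat.log 2 (nm (wv M q)).toNat) ∈
      n.divisors ×ˢ range (Nat.log 2 (A * X₁ * X₂) + 1) := fun q hq =>
    mem_product.2 ⟨hct q hq, hlog q hq⟩
  rw [← Finset.sum_fiberwise_of_maps_to hmap]
  have hbig : (0 : ℝ) ≤ (X₂ : ℝ) ^ 2 / X₁ := by positivity
  have hfib : ∀ y ∈ n.divisors ×ˢ range (Nat.log 2 (A * X₁ * X₂) + 1),
      ∑ q ∈ Q with (ct (wv M q), Nat.log 2 (nm (wv M q)).toNat) = y,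
        ((ct (wv M q) : ℝ) / (nm (wv M q) : ℝ)) ≤
        E * ((4 * CA + 2 * A * CB) * (1 + (X₂ : ℝ) ^ 2 / X₁)) := by
    rintro ⟨g, j⟩ hy
    have hg1 : 1 ≤ g := Nat.pos_of_mem_divisors (mem_product.1 hy).1
    have hgn : g ∣ n := Nat.dvd_of_mem_divisors (mem_product.1 hy).1
    have hg1' : (1 : ℝ) ≤ g := by exact_mod_cast hg1
    set S := Q.filter (fun q => (ct (wv M q), Nat.log 2 (nm (wv M q)).toNat) = (g, j)) with hS
    have hrhs : 0 ≤ E * ((4 * CA + 2 * A * CB) * (1 + (X₂ : ℝ) ^ 2 / X₁)) := by positivity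
    by_cases hSe : S = ∅
    · rw [hSe, Finset.sum_empty]
      exact hrhs
    obtain ⟨q₀, hq₀⟩ := Finset.nonempty_iff_ne_empty.2 hSe
    set Y : ℕ := 2 ^ (j + 1) with hY
    have hYr : (Y : ℝ) = 2 * 2 ^ j := by rw [hY]; push_cast; ring
    -- facts on the elements
    have hfact : ∀ q ∈ S, Prim q ∧ q ∈ bx X₂ ∧ ct (wv M q) = g ∧
        ((2 ^ j : ℕ) : ℤ) ≤ nm (wv M q) ∧ nm (wv M q) < ((2 ^ (j + 1) : ℕ) : ℤ) ∧
        (g : ℤ) ≤ nm (wv M q) := by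
      intro q hq
      rw [hS, mem_filter] at hq
      obtain ⟨hqQ, hq3⟩ := hq
      rw [hQ, mem_filter] at hqQ
      rw [Prod.mk.injEq] at hq3
      have hne := wv_ne hdm hqQ.2
      obtain ⟨hc1, hc2⟩ := ct_le_nm hne
      rw [hq3.1] at hc2
      have hnm1 : 1 ≤ nm (wv M q) := nm_pos_of_ne hne
      refine ⟨hqQ.2, hqQ.1, hq3.1, ?_, ?_, hc2⟩
      · have h1 : 2 ^ j ≤ (nm (wv M q)).toNat := by
          rw [← hq3.2]
          exact Nat.pow_log_le_self 2 (by omega)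
        omega
      · have h1 : (nm (wv M q)).toNat < 2 ^ (j + 1) := by
          rw [← hq3.2]
          exact Nat.lt_pow_succ_log_self (by norm_num) _
        omega
    have hgY : g ≤ Y := by
      obtain ⟨_, _, _, _, h5, h6⟩ := hfact q₀ hq₀
      rw [hY]
      omega
    have hYA : Y ≤ A * X₁ * X₂ := by
      obtain ⟨h1, h2, h3, h4, h5, h6⟩ := hfact q₀ hq₀
      have h7 := hnmle q₀ (mem_filter.1 hq₀).1
      have h8 : ((2 ^ (j + 1) : ℕ) : ℤ) = 2 * ((2 ^ j : ℕ) : ℤ) := by push_cast; ring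
      have h9 : ((Y : ℕ) : ℤ) ≤ ((A * X₁ * X₂ : ℕ) : ℤ) := by
        rw [hY, h8]
        push_cast at h4 ⊢
        linarith
      exact_mod_cast h9
    have hSprop : ∀ q ∈ S, Prim q ∧ nm q ≤ X₂ ∧ ∀ k, |wv M q k| ≤ Y := by
      intro q hq
      obtain ⟨h1, h2, h3, h4, h5, h6⟩ := hfact q hq
      exact ⟨h1, mem_bx.1 h2, fun k => (le_nm _ k).trans (by rw [hY]; exact h5.le)⟩
    have hScp : ∀ q ∈ S, ∀ q' ∈ S, ∀ i, (g : ℤ) ∣ K * cp q q' i := by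
      intro q hq q' hq' i
      apply hcd
      · intro k
        rw [← (hfact q hq).2.2.1]
        exact ct_dvd _ k
      · intro k
        rw [← (hfact q' hq').2.2.1]
        exact ct_dvd _ k
    have hterm : ∀ q ∈ S, ((ct (wv M q) : ℝ) / (nm (wv M q) : ℝ)) ≤
        min (1 : ℝ) (2 * (g : ℝ) / Y) := by
      intro q hq
      obtain ⟨h1, h2, h3, h4, h5, h6⟩ := hfact q hq
      have hpow : ((2 : ℝ) ^ j) ≤ (nm (wv M q) : ℝ) := by exact_mod_cast h4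
      have h6' : ((g : ℕ) : ℝ) ≤ (nm (wv M q) : ℝ) := by exact_mod_cast h6
      have h2j : (1 : ℝ) ≤ (2 : ℝ) ^ j := one_le_pow₀ (by norm_num)
      rw [le_min_iff, h3]
      constructor
      · rw [div_le_one (by linarith)]
        exact h6'
      · rw [hYr]
        have : 2 * (g : ℝ) / (2 * 2 ^ j) = g / 2 ^ j := by
          rw [mul_div_mul_left _ _ (by norm_num : (2 : ℝ) ≠ 0)]
        rw [this]
        gcongr
    have hsum : ∑ q ∈ S, ((ct (wv M q) : ℝ) / (nm (wv M q) : ℝ)) ≤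
        (S.card : ℝ) * min (1 : ℝ) (2 * (g : ℝ) / Y) := by
      have := Finset.sum_le_card_nsmul _ _ _ hterm
      rwa [nsmul_eq_mul] at this
    refine hsum.trans ?_
    have hYpos : (0 : ℝ) < Y := by rw [hYr]; positivity
    have hYA' : (Y : ℝ) ≤ A * X₁ * X₂ := by exact_mod_cast hYA
    have hA' : (1 : ℝ) ≤ A := by exact_mod_cast hA
    by_cases hcase : g * X₁ ≤ Y
    · -- thick tube
      have h1 := hQB Y g hg1 hcase hYA S hSprop hScp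
      have hτ : ((g.divisors.card : ℕ) : ℝ) ≤ E := hE3 g hgn
      calc (S.card : ℝ) * min (1 : ℝ) (2 * (g : ℝ) / Y)
          ≤ (CB * g.divisors.card * ((Y : ℝ) ^ 2 * X₂ / ((X₁ : ℝ) ^ 2 * g))) *
            (2 * (g : ℝ) / Y) := by
            gcongr
            exact min_le_right _ _
        _ = 2 * CB * g.divisors.card * (Y * X₂ / (X₁ : ℝ) ^ 2) := by
            field_simp
        _ ≤ 2 * CB * E * ((A * X₁ * X₂) * X₂ / (X₁ : ℝ) ^ 2) := by gcongr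
        _ = E * (2 * A * CB * ((X₂ : ℝ) ^ 2 / X₁)) := by
            field_simp
        _ ≤ E * ((4 * CA + 2 * A * CB) * (1 + (X₂ : ℝ) ^ 2 / X₁)) := by
            apply mul_le_mul_of_nonneg_left _ (by linarith)
            have h2 : 0 ≤ 2 * (A : ℝ) * CB := by positivity
            nlinarith [mul_nonneg hCA.le hbig]
    · -- thin tube
      push Not at hcase
      have h1 := hQA Y g hg1 hgY hYA S hSprop hScp
      have hcase' : (Y : ℝ) ≤ g * X₁ := by exact_mod_cast hcase.le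
      have hmin0 : 0 ≤ min (1 : ℝ) (2 * (g : ℝ) / Y) := le_min zero_le_one (by positivity)
      set u : ℝ := Y * X₂ / (X₁ * g) with hu
      have hu0 : 0 ≤ u := by positivity
      have hsq : (1 + u) ^ 2 ≤ 2 * (1 + u ^ 2) := by nlinarith [sq_nonneg (1 - u)]
      have hug : (2 * (g : ℝ) / Y) * u ^ 2 ≤ 2 * ((X₂ : ℝ) ^ 2 / X₁) := by
        have e1 : (2 * (g : ℝ) / Y) * u ^ 2 = 2 * ((X₂ : ℝ) ^ 2 / X₁) * (Y / (g * X₁)) := by
          rw [hu]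
          field_simp
        rw [e1]
        have e2 : (Y : ℝ) / (g * X₁) ≤ 1 := by
          rw [div_le_one (by positivity)]
          exact hcase'
        calc 2 * ((X₂ : ℝ) ^ 2 / X₁) * (Y / (g * X₁)) ≤ 2 * ((X₂ : ℝ) ^ 2 / X₁) * 1 := by gcongr
          _ = 2 * ((X₂ : ℝ) ^ 2 / X₁) := by ring
      calc (S.card : ℝ) * min (1 : ℝ) (2 * (g : ℝ) / Y)
          ≤ (CA * (Nat.log 2 X₂ + 1) * (1 + u) ^ 2) * min (1 : ℝ) (2 * (g : ℝ) / Y) := by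
            gcongr
        _ ≤ (CA * E * (2 * (1 + u ^ 2))) * min (1 : ℝ) (2 * (g : ℝ) / Y) := by gcongr
        _ = 2 * CA * E * (min (1 : ℝ) (2 * (g : ℝ) / Y) +
            min (1 : ℝ) (2 * (g : ℝ) / Y) * u ^ 2) := by ring
        _ ≤ 2 * CA * E * (1 + (2 * (g : ℝ) / Y) * u ^ 2) := by
            gcongr
            · exact min_le_left _ _
            · exact min_le_right _ _
        _ ≤ 2 * CA * E * (1 + 2 * ((X₂ : ℝ) ^ 2 / X₁)) := by gcongr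
        _ ≤ E * ((4 * CA + 2 * A * CB) * (1 + (X₂ : ℝ) ^ 2 / X₁)) := by
            have h2 : 0 ≤ 2 * (A : ℝ) * CB := by positivity
            have h3 : 2 * CA * (1 + 2 * ((X₂ : ℝ) ^ 2 / X₁)) ≤
                (4 * CA + 2 * A * CB) * (1 + (X₂ : ℝ) ^ 2 / X₁) := by
              nlinarith [mul_nonneg hCA.le hbig, mul_nonneg h2 hbig]
            calc 2 * CA * E * (1 + 2 * ((X₂ : ℝ) ^ 2 / X₁))
                = E * (2 * CA * (1 + 2 * ((X₂ : ℝ) ^ 2 / X₁))) := by ring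
              _ ≤ _ := mul_le_mul_of_nonneg_left h3 (by linarith)
  calc ∑ y ∈ n.divisors ×ˢ range (Nat.log 2 (A * X₁ * X₂) + 1),
        ∑ q ∈ Q with (ct (wv M q), Nat.log 2 (nm (wv M q)).toNat) = y,
          ((ct (wv M q) : ℝ) / (nm (wv M q) : ℝ))
      ≤ ((n.divisors ×ˢ range (Nat.log 2 (A * X₁ * X₂) + 1)).card : ℝ) *
        (E * ((4 * CA + 2 * A * CB) * (1 + (X₂ : ℝ) ^ 2 / X₁))) := by
        have := Finset.sum_le_card_nsmul _ _ _ hfib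
        rwa [nsmul_eq_mul] at this
    _ ≤ (E * E) * (E * ((4 * CA + 2 * A * CB) * (1 + (X₂ : ℝ) ^ 2 / X₁))) := by
        gcongr
        rw [card_product, card_range]
        push_cast
        exact mul_le_mul hE2 hE1 (by positivity) (by linarith)
    _ = E ^ 3 * ((4 * CA + 2 * A * CB) * (1 + (X₂ : ℝ) ^ 2 / X₁)) := by ring

end Pool.Agent.W978.QN
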