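import Mathlib
import Pool.Agent.W978.QN.Core

/-! The count in a dyadic box (three projective planes), second part. -/

namespace Pool.Agent.W978.QN

open Finset

open Classical in
/-- The set to be counted in a dyadic box. -/
noncomputable def cs (b : Fin 3 → Fin 3 → Fin 3 → ℤ) (X₁ X₂ X₃ : ℕ) :
    Finset ((Fin 3 → ℤ) × (Fin 3 → ℤ) × (Fin 3 → ℤ)) :=
  ((bx X₁) ×ˢ (bx X₂) ×ˢ (bx X₃)).filter fun x =>
    (Prim x.1 ∧ dm (mp b x.1) ≠ 0 ∧ (X₁ : ℤ) ≤ 2 * nm x.1) ∧ (Prim x.2.1) ∧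
    (Prim x.2.2 ∧ ∑ k, wv (mp b x.1) x.2.1 k * x.2.2 k = 0)

theorem one_le_mxb (b : Fin 3 → Fin 3 → Fin 3 → ℤ) : 1 ≤ mxb b := by unfold mxb; omega

open Classical in
/-- The count in a dyadic box. -/
theorem core (hR : S_R) (hCD : S_CD) (hQA : S_QA) (hQB : S_QB) (hCMP : S_CMP) (hNUL : S_NUL)
    (b : Fin 3 → Fin 3 → Fin 3 → ℤ) (hb : Rk2 b)
    (ε : ℝ) (hε : 0 < ε) : ∃ C : ℝ, 0 < C ∧ ∀ X₁ X₂ X₃ : ℕ, 1 ≤ X₁ → X₁ ≤ X₂ → X₂ ≤ X₃ →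
      ((cs b X₁ X₂ X₃).card : ℝ) ≤ C * ((X₁ * X₂ * X₃ : ℕ) : ℝ) ^ (2 + ε) := by
  obtain ⟨c, hc, hcmp⟩ := hCMP b hb
  obtain ⟨K, hK, hnul⟩ := hNUL b hb
  set A : ℕ := 18 * mxb b with hAdef
  have hm1 := one_le_mxb b
  have hA : 1 ≤ A := by rw [hAdef]; omega
  obtain ⟨CA, hCA, hQA⟩ := hQA A K (c / 4) hA hK (by positivity)
  obtain ⟨CB, hCB, hQB⟩ := hQB A K (c / 4) hA hK (by positivity)
  have hc1 : 1 ≤ 162 * mxb b ^ 3 := by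
    have : 1 ≤ mxb b ^ 3 := Nat.one_le_pow _ _ hm1
    omega
  obtain ⟨C, hC, hsm⟩ := Pool.Agent.W978.QM.small_bound (162 * mxb b ^ 3) hc1 (ε / 3)
    (by positivity)
  set C₀ : ℝ := 4 * CA + 2 * A * CB with hC₀
  have hC₀pos : 0 < C₀ := by positivity
  refine ⟨3000 * (1 + C₀) * (C + 1) ^ 3, by positivity, ?_⟩
  intro X₁ X₂ X₃ h1 h12 h23
  have h2 : 1 ≤ X₂ := h1.trans h12
  have h3 : 1 ≤ X₃ := h2.trans h23
  set P3 : ℕ := X₁ * X₂ * X₃ with hP3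
  have hP31 : 1 ≤ P3 := by
    rw [hP3]
    exact Nat.one_le_iff_ne_zero.2 (by positivity)
  obtain ⟨hdiv, hlog⟩ := hsm P3 hP31
  set E : ℝ := (C + 1) * (P3 : ℝ) ^ (ε / 3) with hE
  have hP31' : (1 : ℝ) ≤ P3 := by exact_mod_cast hP31
  have hP3p : (1 : ℝ) ≤ (P3 : ℝ) ^ (ε / 3) := Real.one_le_rpow hP31' (by positivity)
  have hE1 : 1 ≤ E := one_le_mul_of_one_le_of_one_le (by linarith) hP3p
  have hCE : C * (P3 : ℝ) ^ (ε / 3) ≤ E := by rw [hE, add_mul, one_mul]; linarith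
  have x1 : (1 : ℝ) ≤ X₁ := by exact_mod_cast h1
  have x2 : (1 : ℝ) ≤ X₂ := by exact_mod_cast h2
  have x3 : (1 : ℝ) ≤ X₃ := by exact_mod_cast h3
  have x12 : (X₁ : ℝ) ≤ X₂ := by exact_mod_cast h12
  have x23 : (X₂ : ℝ) ≤ X₃ := by exact_mod_cast h23
  -- comparison of sizes
  have hX12 : X₁ * X₂ ≤ P3 := by
    rw [hP3]; exact Nat.le_mul_of_pos_right _ (by positivity)
  have hX2P : X₂ ≤ P3 := le_trans (Nat.le_mul_of_pos_left _ (by positivity)) hX12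
  have hX111 : X₁ ^ 3 ≤ P3 := by
    rw [hP3]
    calc X₁ ^ 3 = X₁ * X₁ * X₁ := by ring
      _ ≤ X₁ * X₂ * X₃ := by gcongr; exact h12.trans h23
  have hPP : P3 ≤ P3 ^ 2 := Nat.le_self_pow (by norm_num) _
  -- the set as a double sum
  set P₁ := (bx X₁).filter (fun p => Prim p ∧ dm (mp b p) ≠ 0 ∧ (X₁ : ℤ) ≤ 2 * nm p) with hP₁
  have hcount : ((cs b X₁ X₂ X₃).card : ℝ) ≤
      ∑ p ∈ P₁, ∑ q ∈ (bx X₂).filter (fun q => Prim q),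
        (4 + 8 * (X₃ : ℝ) ^ 2 * ct (wv (mp b p) q) / nm (wv (mp b p) q)) := by
    have hsum : ((cs b X₁ X₂ X₃).card : ℝ) =
        ∑ p ∈ P₁, ∑ q ∈ (bx X₂).filter (fun q => Prim q),
          (((bx X₃).filter fun r => Prim r ∧ ∑ k, wv (mp b p) q k * r k = 0).card : ℝ) := by
      unfold cs
      rw [Finset.card_filter, Finset.sum_product, hP₁, Finset.sum_filter]
      push_cast
      refine Finset.sum_congr rfl fun p _ => ?_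
      rw [Finset.sum_product]
      by_cases hp : Prim p ∧ dm (mp b p) ≠ 0 ∧ (X₁ : ℤ) ≤ 2 * nm p
      · rw [if_pos hp, Finset.sum_filter]
        refine Finset.sum_congr rfl fun q _ => ?_
        by_cases hq : Prim q
        · rw [if_pos hq, Finset.card_filter]
          push_cast
          refine Finset.sum_congr rfl fun x _ => ?_
          simp only [hp, hq, true_and, and_true, ne_eq, not_false_eq_true]
        · rw [if_neg hq]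
          refine Finset.sum_eq_zero fun x _ => ?_
          rw [if_neg]
          rintro ⟨_, hq', _⟩
          exact hq hq'
      · rw [if_neg hp]
        refine Finset.sum_eq_zero fun q _ => Finset.sum_eq_zero fun x _ => ?_
        rw [if_neg]
        rintro ⟨hp', _⟩
        exact hp hp'
    rw [hsum]
    refine Finset.sum_le_sum fun p hp => Finset.sum_le_sum fun q hq => ?_
    rw [hP₁, mem_filter] at hp
    rw [mem_filter] at hq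
    exact hR (wv (mp b p) q) (wv_ne hp.2.2.1 hq.2) X₃ h3
  refine hcount.trans ?_
  -- inner sums
  have hinner : ∀ p ∈ P₁, ∑ q ∈ (bx X₂).filter (fun q => Prim q),
        (4 + 8 * (X₃ : ℝ) ^ 2 * ct (wv (mp b p) q) / nm (wv (mp b p) q)) ≤
      108 * (X₂ : ℝ) ^ 3 + 8 * (X₃ : ℝ) ^ 2 * (E ^ 3 * (C₀ * (1 + (X₂ : ℝ) ^ 2 / X₁))) := by
    intro p hp
    rw [hP₁, mem_filter] at hp
    obtain ⟨hp0, hp1, hp2, hp3⟩ := hp
    have hdmle : (dm (mp b p)).natAbs ≤ 162 * mxb b ^ 3 * P3 ^ 2 := by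
      have h5 := dm_le (Z := 3 * mxb b * X₁) (by positivity) (fun k j => mp_le b hp0 k j)
      have h6 : |dm (mp b p)| ≤ 162 * mxb b ^ 3 * X₁ ^ 3 := by
        refine h5.trans (le_of_eq ?_)
        ring
      rw [Int.abs_eq_natAbs] at h6
      have h7 : (dm (mp b p)).natAbs ≤ 162 * mxb b ^ 3 * X₁ ^ 3 := by exact_mod_cast h6
      exact h7.trans (Nat.mul_le_mul_left _ (hX111.trans hPP))
    have hdm1 : 1 ≤ (dm (mp b p)).natAbs :=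
      Nat.one_le_iff_ne_zero.2 (Int.natAbs_ne_zero.2 hp2)
    have hminor : ∃ k k' j j', (c / 4) * (X₁ : ℝ) ^ 2 ≤
        |((mnr (mp b p) k k' j j' : ℤ) : ℝ)| := by
      obtain ⟨k, k', j, j', h5⟩ := hcmp p
      refine ⟨k, k', j, j', le_trans ?_ h5⟩
      have h6 : (X₁ : ℝ) ≤ 2 * (nm p : ℝ) := by exact_mod_cast hp3
      calc c / 4 * (X₁ : ℝ) ^ 2 ≤ c / 4 * (2 * (nm p : ℝ)) ^ 2 := by gcongr
        _ = c * (nm p : ℝ) ^ 2 := by ring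
    have hmpA : ∀ k j, |mp b p k j| ≤ (A : ℤ) * X₁ := by
      intro k j
      refine (mp_le b hp0 k j).trans ?_
      rw [hAdef]
      push_cast
      have : (0 : ℤ) ≤ mxb b * X₁ := by positivity
      linarith
    have hAP : A * X₁ * X₂ ≤ 162 * mxb b ^ 3 * P3 ^ 2 := by
      have e1 : mxb b ≤ mxb b ^ 3 := Nat.le_self_pow (by norm_num) _
      calc A * X₁ * X₂ = 18 * mxb b * (X₁ * X₂) := by rw [hAdef]; ring
        _ ≤ 162 * mxb b ^ 3 * P3 ^ 2 := by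
            gcongr
            · norm_num
            · exact hX12.trans hPP
    have hs := sum_q A K hA CA CB hCA hCB (mp b p) X₁ X₂ h1 h2 hp2
      (fun g q q' hq hq' i => hnul p hp1 g (cp q q' i)
        (fun k k' j j' => hCD (mp b p) g q q' hq hq' k k' j j' i))
      (fun q hq k => by
        have := wv_le b hp0 hq k
        rw [hAdef]
        push_cast
        linarith)
      (fun Y g hg hgY hY Q hQ hQ' => hQA (mp b p) X₁ X₂ Y g h1 h2 hg hgY hY hmpA hminor Q hQ hQ')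
      (fun Y g hg hgY hY Q hQ hQ' => hQB (mp b p) X₁ X₂ Y g h1 h2 hg hgY hY hmpA hminor Q hQ hQ')
      E hE1
      ((hlog X₂ h2 (hX2P.trans (hPP.trans (Nat.le_mul_of_pos_left _ (by omega))))).trans hCE)
      ((hlog (A * X₁ * X₂) (Nat.one_le_iff_ne_zero.2 (by positivity)) hAP).trans hCE)
      ((hdiv _ hdm1 hdmle).trans hCE)
      (fun g hg => (hdiv g (Nat.one_le_iff_ne_zero.2 (fun h0 => by
        rw [h0, zero_dvd_iff] at hg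
        omega)) ((Nat.le_of_dvd (by omega) hg).trans hdmle)).trans hCE)
    set Q := (bx X₂).filter (fun q => Prim q) with hQ
    have hcardQ : (Q.card : ℝ) ≤ 27 * (X₂ : ℝ) ^ 3 :=
      le_trans (by exact_mod_cast Finset.card_le_card (Finset.filter_subset _ _)) (card_bx_le h2)
    calc ∑ q ∈ Q, (4 + 8 * (X₃ : ℝ) ^ 2 * ct (wv (mp b p) q) / nm (wv (mp b p) q))
        = 4 * Q.card + 8 * (X₃ : ℝ) ^ 2 *
          ∑ q ∈ Q, ((ct (wv (mp b p) q) : ℝ) / (nm (wv (mp b p) q) : ℝ)) := by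
          rw [Finset.mul_sum, ← nsmul_eq_mul', ← Finset.sum_const, ← Finset.sum_add_distrib]
          refine Finset.sum_congr rfl fun q _ => ?_
          ring
      _ ≤ 4 * (27 * (X₂ : ℝ) ^ 3) + 8 * (X₃ : ℝ) ^ 2 *
          (E ^ 3 * (C₀ * (1 + (X₂ : ℝ) ^ 2 / X₁))) := by
          gcongr
      _ = 108 * (X₂ : ℝ) ^ 3 + 8 * (X₃ : ℝ) ^ 2 *
          (E ^ 3 * (C₀ * (1 + (X₂ : ℝ) ^ 2 / X₁))) := by ring
  have hcardP : (P₁.card : ℝ) ≤ 27 * (X₁ : ℝ) ^ 3 :=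
    le_trans (by exact_mod_cast Finset.card_le_card (Finset.filter_subset _ _)) (card_bx_le h1)
  have hfin := Finset.sum_le_card_nsmul _ _ _ hinner
  rw [nsmul_eq_mul] at hfin
  refine hfin.trans ?_
  have hE3' : 1 ≤ E ^ 3 := one_le_pow₀ hE1
  have hP3r : (P3 : ℝ) = X₁ * X₂ * X₃ := by rw [hP3]; push_cast; ring
  have hB1 : (X₁ : ℝ) ^ 3 * (X₂ : ℝ) ^ 3 ≤ (P3 : ℝ) ^ 2 := by
    rw [hP3r]
    have e1 : (X₁ : ℝ) * X₂ ≤ X₃ ^ 2 := by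
      calc (X₁ : ℝ) * X₂ ≤ X₃ * X₃ := by
            gcongr
            exact h12.trans h23
        _ = X₃ ^ 2 := by ring
    calc (X₁ : ℝ) ^ 3 * (X₂ : ℝ) ^ 3 = ((X₁ : ℝ) * X₂) ^ 2 * (X₁ * X₂) := by ring
      _ ≤ ((X₁ : ℝ) * X₂) ^ 2 * X₃ ^ 2 := by gcongr
      _ = (X₁ * X₂ * X₃) ^ 2 := by ring
  have hB2 : (X₁ : ℝ) ^ 3 * (X₃ : ℝ) ^ 2 ≤ (P3 : ℝ) ^ 2 := by
    rw [hP3r]
    have e1 : (X₁ : ℝ) ≤ X₂ ^ 2 := x12.trans (le_self_pow₀ x2 (by norm_num))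
    calc (X₁ : ℝ) ^ 3 * (X₃ : ℝ) ^ 2 = (X₁ : ℝ) ^ 2 * X₁ * X₃ ^ 2 := by ring
      _ ≤ (X₁ : ℝ) ^ 2 * X₂ ^ 2 * X₃ ^ 2 := by gcongr
      _ = (X₁ * X₂ * X₃) ^ 2 := by ring
  have hB3 : (X₁ : ℝ) ^ 3 * ((X₃ : ℝ) ^ 2 * ((X₂ : ℝ) ^ 2 / X₁)) = (P3 : ℝ) ^ 2 := by
    rw [hP3r]
    have : (X₁ : ℝ) ≠ 0 := by linarith
    field_simp
  have hmain : (P₁.card : ℝ) * (108 * (X₂ : ℝ) ^ 3 +
      8 * (X₃ : ℝ) ^ 2 * (E ^ 3 * (C₀ * (1 + (X₂ : ℝ) ^ 2 / X₁)))) ≤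
      3000 * (1 + C₀) * (E ^ 3 * (P3 : ℝ) ^ 2) := by
    calc (P₁.card : ℝ) * (108 * (X₂ : ℝ) ^ 3 +
        8 * (X₃ : ℝ) ^ 2 * (E ^ 3 * (C₀ * (1 + (X₂ : ℝ) ^ 2 / X₁))))
        ≤ (27 * (X₁ : ℝ) ^ 3) * (108 * (X₂ : ℝ) ^ 3 +
        8 * (X₃ : ℝ) ^ 2 * (E ^ 3 * (C₀ * (1 + (X₂ : ℝ) ^ 2 / X₁)))) := by gcongr
      _ = 2916 * ((X₁ : ℝ) ^ 3 * (X₂ : ℝ) ^ 3) + 216 * E ^ 3 * C₀ * ((X₁ : ℝ) ^ 3 * X₃ ^ 2) +
          216 * E ^ 3 * C₀ * ((X₁ : ℝ) ^ 3 * ((X₃ : ℝ) ^ 2 * ((X₂ : ℝ) ^ 2 / X₁))) := by ring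
      _ ≤ 2916 * (P3 : ℝ) ^ 2 + 216 * E ^ 3 * C₀ * (P3 : ℝ) ^ 2 +
          216 * E ^ 3 * C₀ * (P3 : ℝ) ^ 2 := by
          rw [hB3]
          gcongr
      _ ≤ 3000 * (1 + C₀) * (E ^ 3 * (P3 : ℝ) ^ 2) := by
          have e1 : (P3 : ℝ) ^ 2 ≤ E ^ 3 * (P3 : ℝ) ^ 2 :=
            le_mul_of_one_le_left (by positivity) hE3'
          have e2 : 0 ≤ C₀ * (E ^ 3 * (P3 : ℝ) ^ 2) := by positivity
          have e3 : 0 ≤ E ^ 3 * (P3 : ℝ) ^ 2 := by positivity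
          have e4 : 3000 * (1 + C₀) * (E ^ 3 * (P3 : ℝ) ^ 2) =
            3000 * (E ^ 3 * (P3 : ℝ) ^ 2) + 3000 * (C₀ * (E ^ 3 * (P3 : ℝ) ^ 2)) := by ring
          have e5 : 2916 * (P3 : ℝ) ^ 2 + 216 * E ^ 3 * C₀ * (P3 : ℝ) ^ 2 +
            216 * E ^ 3 * C₀ * (P3 : ℝ) ^ 2 =
            2916 * (P3 : ℝ) ^ 2 + 432 * (C₀ * (E ^ 3 * (P3 : ℝ) ^ 2)) := by ring
          rw [e4, e5]
          linarith
  refine hmain.trans (le_of_eq ?_)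
  have hpow : ((P3 : ℝ) ^ (ε / 3)) ^ 3 * (P3 : ℝ) ^ 2 = (P3 : ℝ) ^ (2 + ε) := by
    have h0 : (0 : ℝ) < P3 := by linarith
    rw [← Real.rpow_natCast ((P3 : ℝ) ^ (ε / 3)) 3, ← Real.rpow_mul h0.le, Real.rpow_add h0,
      ← Real.rpow_natCast (P3 : ℝ) 2]
    have : ε / 3 * ((3 : ℕ) : ℝ) = ε := by push_cast; ring
    rw [this]
    push_cast
    ring
  rw [hE, mul_pow]
  rw [← hpow]
  ring

end Pool.Agent.W978.QN
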