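import Mathlib
import Pool.Agent.W978.QN.Core2

/-! Assembly: all orderings of the heights, all line bundles (three projective planes). -/

namespace Pool.Agent.W978.QN

open Finset

/-- The normalised primitive representative of a rational point of the projective plane. -/
def Rep (v : Fin 3 → ℤ) : Prop :=
  Prim v ∧ (0 < v 0 ∨ (v 0 = 0 ∧ 0 < v 1) ∨ (v 0 = 0 ∧ v 1 = 0 ∧ v 2 = 1))

theorem cf_wv (b : Fin 3 → Fin 3 → Fin 3 → ℤ) (p q r : Fin 3 → ℤ) :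
    cf b p q r = ∑ k, wv (mp b p) q k * r k := by
  unfold cf wv mp
  simp only [Fin.sum_univ_three, Int.cast_id]
  ring

theorem cf_bv (b : Fin 3 → Fin 3 → Fin 3 → ℤ) (p : Fin 3 → ℤ) (u v : Fin 3) :
    cf b p (bv u) (bv v) = mp b p v u := by
  rw [cf_wv]
  unfold wv bv
  simp only [Pi.single_apply, mul_ite, mul_one, mul_zero, Finset.sum_ite_eq', mem_univ, if_true]

theorem tf_cf (hBR : S_BR) (a : (Fin 3 → Fin 3) → ℤ) (σ : Equiv.Perm (Fin 3))
    (P : Fin 3 → Fin 3 → ℤ) :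
    tf a P = cf (cu a σ) (P (σ 0)) (P (σ 1)) (P (σ 2)) := by
  rw [hBR ℤ a σ P]
  simp only [Int.cast_id]

theorem mt_mp (hBR : S_BR) (a : (Fin 3 → Fin 3) → ℤ) (σ : Equiv.Perm (Fin 3))
    (P : Fin 3 → Fin 3 → ℤ) (u v : Fin 3) :
    mt a (σ 1) (σ 2) P u v = mp (cu a σ) (P (σ 0)) v u := by
  unfold mt
  rw [Matrix.of_apply, tf_cf hBR a σ]
  have h10 : σ 0 ≠ σ 1 := fun h => by simpa using σ.injective h
  have h20 : σ 0 ≠ σ 2 := fun h => by simpa using σ.injective h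
  have h21 : σ 1 ≠ σ 2 := fun h => by simpa using σ.injective h
  rw [Function.update_of_ne h20, Function.update_of_ne h10, Function.update_of_ne h21,
    Function.update_self, Function.update_self, cf_bv]

theorem det_dm (hBR : S_BR) (a : (Fin 3 → Fin 3) → ℤ) (σ : Equiv.Perm (Fin 3))
    (P : Fin 3 → Fin 3 → ℤ) :
    (mt a (σ 1) (σ 2) P).det = dm (mp (cu a σ) (P (σ 0))) := by
  rw [dm_eq, Matrix.det_fin_three]
  simp only [mt_mp hBR]
  ring

/-- The dyadic exponent of a vector. -/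
def dy (v : Fin 3 → ℤ) : ℕ := Nat.clog 2 (nm v).toNat

theorem dy_spec {v : Fin 3 → ℤ} (hv : Prim v) :
    nm v ≤ ((2 ^ dy v : ℕ) : ℤ) ∧ ((2 ^ dy v : ℕ) : ℤ) ≤ 2 * nm v := by
  have h1 := nm_pos hv
  unfold dy
  constructor
  · have := Nat.le_pow_clog (b := 2) (by norm_num) (nm v).toNat
    omega
  · by_cases h2 : (nm v).toNat = 1
    · rw [h2, Nat.clog_one_right]
      omega
    · have h3 : 1 < (nm v).toNat := by omega
      have h4 := Nat.pow_pred_clog_lt_self (b := 2) (by norm_num) h3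
      have h5 : 0 < Nat.clog 2 (nm v).toNat := Nat.clog_pos (by norm_num) h3
      have h6 : 2 ^ Nat.clog 2 (nm v).toNat = 2 * 2 ^ (Nat.clog 2 (nm v).toNat).pred := by
        rw [← pow_succ']
        exact congrArg (fun n => 2 ^ n) (Nat.succ_pred_eq_of_pos h5).symm
      omega

theorem dy_mono {v w : Fin 3 → ℤ} (h : nm v ≤ nm w) : dy v ≤ dy w := by
  unfold dy
  exact Nat.clog_mono_right 2 (by omega)

open Classical in
/-- The anticanonical count. -/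
theorem anti (hBR : S_BR) (hR : S_R) (hCD : S_CD) (hQA : S_QA) (hQB : S_QB) (hCMP : S_CMP)
    (hNUL : S_NUL) (hRK : S_RK)
    (a : (Fin 3 → Fin 3) → ℤ) (ha : Smooth a) (ε : ℝ) (hε : 0 < ε) :
    ∃ C : ℝ, 0 < C ∧ ∀ B : ℕ, 1 ≤ B → ∃ S : Finset (Fin 3 → Fin 3 → ℤ),
      (∀ P : Fin 3 → Fin 3 → ℤ, (∀ i, Prim (P i)) → tf a P = 0 → InU a P →
        ∏ i, nm (P i) ≤ B → P ∈ S) ∧ (S.card : ℝ) ≤ C * (B : ℝ) ^ (2 + ε) := by
  have hcore := fun σ : Equiv.Perm (Fin 3) =>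
    core hR hCD hQA hQB hCMP hNUL (cu a σ) (hRK a ha σ) (ε / 2) (by positivity)
  choose Cσ hCσ hcore using hcore
  obtain ⟨C₂, hC₂, hlog⟩ := Pool.Agent.W978.QM.log_bound (ε / 6) (by positivity)
  set C₁ := ∑ σ, Cσ σ with hC₁
  have hC₁0 : 0 ≤ C₁ := Finset.sum_nonneg fun σ _ => (hCσ σ).le
  refine ⟨(C₁ + 1) * C₂ ^ 3 * (8 : ℝ) ^ (2 + ε), by positivity, ?_⟩
  intro B hB1
  have hB1' : (1 : ℝ) ≤ B := by exact_mod_cast hB1
  set L := Nat.log 2 (8 * B) + 1 with hLdef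
  -- the index set
  set I : Finset (Fin 3 → ℕ) := (Fintype.piFinset fun _ : Fin 3 => range L).filter
    (fun k => k 0 ≤ k 1 ∧ k 1 ≤ k 2 ∧ 2 ^ k 0 * 2 ^ k 1 * 2 ^ k 2 ≤ 8 * B) with hI
  set mk : Equiv.Perm (Fin 3) → (Fin 3 → ℤ) × (Fin 3 → ℤ) × (Fin 3 → ℤ) →
    (Fin 3 → Fin 3 → ℤ) := fun σ x i =>
      (![x.1, x.2.1, x.2.2] : Fin 3 → Fin 3 → ℤ) (σ.symm i) with hmk
  refine ⟨(univ : Finset (Equiv.Perm (Fin 3))).biUnion fun σ => I.biUnion fun k =>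
    (cs (cu a σ) (2 ^ k 0) (2 ^ k 1) (2 ^ k 2)).image (mk σ), ?_, ?_⟩
  · intro P hP hq hU hprod
    set σ := Tuple.sort (fun i => nm (P i)) with hσ
    have hmono : Monotone ((fun i => nm (P i)) ∘ σ) := Tuple.monotone_sort _
    rw [mem_biUnion]
    refine ⟨σ, mem_univ _, ?_⟩
    rw [mem_biUnion]
    refine ⟨fun m => dy (P (σ m)), ?_, ?_⟩
    · have hle : 2 ^ dy (P (σ 0)) * 2 ^ dy (P (σ 1)) * 2 ^ dy (P (σ 2)) ≤ 8 * B := by
        have h0 := (dy_spec (hP (σ 0))).2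
        have h1 := (dy_spec (hP (σ 1))).2
        have h2 := (dy_spec (hP (σ 2))).2
        have hpr : ∏ i, nm (P i) = nm (P (σ 0)) * nm (P (σ 1)) * nm (P (σ 2)) := by
          rw [← Equiv.prod_comp σ (fun i => nm (P i)), Fin.prod_univ_three]
        have n0 := nm_pos (hP (σ 0))
        have n1 := nm_pos (hP (σ 1))
        have n2 := nm_pos (hP (σ 2))
        have : ((2 ^ dy (P (σ 0)) : ℕ) : ℤ) * ((2 ^ dy (P (σ 1)) : ℕ) : ℤ) *
            ((2 ^ dy (P (σ 2)) : ℕ) : ℤ) ≤ 8 * B := by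
          calc ((2 ^ dy (P (σ 0)) : ℕ) : ℤ) * ((2 ^ dy (P (σ 1)) : ℕ) : ℤ) *
              ((2 ^ dy (P (σ 2)) : ℕ) : ℤ)
              ≤ (2 * nm (P (σ 0))) * (2 * nm (P (σ 1))) * (2 * nm (P (σ 2))) := by gcongr
            _ = 8 * ∏ i, nm (P i) := by rw [hpr]; ring
            _ ≤ 8 * B := by gcongr
        exact_mod_cast this
      rw [hI, mem_filter, Fintype.mem_piFinset]
      refine ⟨?_, dy_mono (hmono (by decide)), dy_mono (hmono (by decide)), hle⟩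
      have hone : ∀ m, 1 ≤ 2 ^ dy (P (σ m)) := fun m => Nat.one_le_two_pow
      have hlem : ∀ m : Fin 3, 2 ^ dy (P (σ m)) ≤ 8 * B := by
        intro m
        refine le_trans ?_ hle
        have a0 := hone 0
        have a1 := hone 1
        have a2 := hone 2
        set y0 := 2 ^ dy (P (σ 0))
        set y1 := 2 ^ dy (P (σ 1))
        set y2 := 2 ^ dy (P (σ 2))
        have b01 : 1 ≤ y0 * y1 := Nat.mul_le_mul a0 a1
        fin_cases m
        · calc y0 = y0 * 1 * 1 := by ring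
            _ ≤ y0 * y1 * y2 := by gcongr
        · calc y1 = 1 * y1 * 1 := by ring
            _ ≤ y0 * y1 * y2 := by gcongr
        · calc y2 = 1 * y2 := by ring
            _ ≤ y0 * y1 * y2 := by gcongr
      intro m
      rw [mem_range, hLdef]
      have := Nat.le_log_of_pow_le (b := 2) (by norm_num) (hlem m)
      omega
    · rw [mem_image]
      refine ⟨(P (σ 0), P (σ 1), P (σ 2)), ?_, ?_⟩
      · unfold cs
        rw [mem_filter, mem_product, mem_product]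
        refine ⟨⟨mem_bx.2 (dy_spec (hP _)).1, mem_bx.2 (dy_spec (hP _)).1,
          mem_bx.2 (dy_spec (hP _)).1⟩,
          ⟨hP _, ?_, (dy_spec (hP _)).2⟩, hP _, hP _, ?_⟩
        · have := hU (σ 1) (σ 2) (fun h => by simpa using σ.injective h)
          rwa [det_dm hBR] at this
        · rw [tf_cf hBR a σ, cf_wv] at hq
          exact hq
      · funext i
        obtain ⟨m, rfl⟩ := σ.surjective i
        simp only [hmk, Equiv.symm_apply_apply]
        fin_cases m <;> rfl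
  · -- the cardinality
    have hL4 : ((L : ℕ) : ℝ) ≤ C₂ * ((8 * B : ℕ) : ℝ) ^ (ε / 6) := by
      have := hlog (8 * B) (by omega)
      rw [hLdef]
      push_cast at this ⊢
      exact this
    have hcardI : (I.card : ℝ) ≤ (C₂ * ((8 * B : ℕ) : ℝ) ^ (ε / 6)) ^ 3 := by
      have h1 : I.card ≤ L ^ 3 := by
        refine (Finset.card_le_card (Finset.filter_subset _ _)).trans (le_of_eq ?_)
        rw [Fintype.card_piFinset]
        simp
      calc (I.card : ℝ) ≤ ((L ^ 3 : ℕ) : ℝ) := by exact_mod_cast h1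
        _ = (L : ℝ) ^ 3 := by push_cast; ring
        _ ≤ _ := pow_le_pow_left₀ (by positivity) hL4 3
    have hterm : ∀ σ : Equiv.Perm (Fin 3), ∀ k ∈ I,
        (((cs (cu a σ) (2 ^ k 0) (2 ^ k 1) (2 ^ k 2)).image (mk σ)).card : ℝ) ≤
        Cσ σ * ((8 * B : ℕ) : ℝ) ^ (2 + ε / 2) := by
      intro σ k hk
      rw [hI, mem_filter] at hk
      obtain ⟨-, k01, k12, hk16⟩ := hk
      have h01 : 2 ^ k 0 ≤ 2 ^ k 1 := Nat.pow_le_pow_right (by norm_num) k01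
      have h12 : 2 ^ k 1 ≤ 2 ^ k 2 := Nat.pow_le_pow_right (by norm_num) k12
      have h1 := hcore σ (2 ^ k 0) (2 ^ k 1) (2 ^ k 2) Nat.one_le_two_pow h01 h12
      calc (((cs (cu a σ) (2 ^ k 0) (2 ^ k 1) (2 ^ k 2)).image (mk σ)).card : ℝ)
          ≤ ((cs (cu a σ) (2 ^ k 0) (2 ^ k 1) (2 ^ k 2)).card : ℝ) := by
            exact_mod_cast Finset.card_image_le
        _ ≤ Cσ σ * ((2 ^ k 0 * 2 ^ k 1 * 2 ^ k 2 : ℕ) : ℝ) ^ (2 + ε / 2) := h1
        _ ≤ Cσ σ * ((8 * B : ℕ) : ℝ) ^ (2 + ε / 2) := by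
            apply mul_le_mul_of_nonneg_left _ (hCσ σ).le
            exact Real.rpow_le_rpow (by positivity) (by exact_mod_cast hk16) (by positivity)
    have hX0 : (0 : ℝ) < ((8 * B : ℕ) : ℝ) := by
      push_cast; linarith
    calc (((univ : Finset (Equiv.Perm (Fin 3))).biUnion fun σ => I.biUnion fun k =>
          (cs (cu a σ) (2 ^ k 0) (2 ^ k 1) (2 ^ k 2)).image (mk σ)).card : ℝ)
        ≤ ∑ σ : Equiv.Perm (Fin 3), ∑ k ∈ I,
          (((cs (cu a σ) (2 ^ k 0) (2 ^ k 1) (2 ^ k 2)).image (mk σ)).card : ℝ) := by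
          have h1 := Finset.card_biUnion_le (s := (univ : Finset (Equiv.Perm (Fin 3))))
            (t := fun σ => I.biUnion fun k =>
              (cs (cu a σ) (2 ^ k 0) (2 ^ k 1) (2 ^ k 2)).image (mk σ))
          have h2 : ∑ σ : Equiv.Perm (Fin 3), (I.biUnion fun k =>
              (cs (cu a σ) (2 ^ k 0) (2 ^ k 1) (2 ^ k 2)).image (mk σ)).card ≤
            ∑ σ : Equiv.Perm (Fin 3), ∑ k ∈ I,
              ((cs (cu a σ) (2 ^ k 0) (2 ^ k 1) (2 ^ k 2)).image (mk σ)).card :=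
            Finset.sum_le_sum fun σ _ => Finset.card_biUnion_le
          exact_mod_cast h1.trans h2
      _ ≤ ∑ σ : Equiv.Perm (Fin 3), ∑ k ∈ I, Cσ σ * ((8 * B : ℕ) : ℝ) ^ (2 + ε / 2) :=
          Finset.sum_le_sum fun σ _ => Finset.sum_le_sum fun k hk => hterm σ k hk
      _ = (I.card : ℝ) * (C₁ * ((8 * B : ℕ) : ℝ) ^ (2 + ε / 2)) := by
          simp only [Finset.sum_const, nsmul_eq_mul]
          rw [← Finset.mul_sum, ← Finset.sum_mul, hC₁]
      _ ≤ (C₂ * ((8 * B : ℕ) : ℝ) ^ (ε / 6)) ^ 3 *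
          ((C₁ + 1) * ((8 * B : ℕ) : ℝ) ^ (2 + ε / 2)) := by
          gcongr
          linarith
      _ = (C₁ + 1) * C₂ ^ 3 * (((8 * B : ℕ) : ℝ) ^ (ε / 6 * 3) *
          ((8 * B : ℕ) : ℝ) ^ (2 + ε / 2)) := by
          rw [mul_pow, ← Real.rpow_natCast (((8 * B : ℕ) : ℝ) ^ (ε / 6)) 3,
            ← Real.rpow_mul hX0.le]
          push_cast
          ring
      _ = (C₁ + 1) * C₂ ^ 3 * ((8 * B : ℕ) : ℝ) ^ (2 + ε) := by
          rw [← Real.rpow_add hX0]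
          congr 2
          ring
      _ = (C₁ + 1) * C₂ ^ 3 * (8 : ℝ) ^ (2 + ε) * (B : ℝ) ^ (2 + ε) := by
          push_cast
          rw [Real.mul_rpow (by norm_num) (by linarith)]
          ring

/-- The exponent: the least `t` such that `t L + K` is nef, where `L = (l 0, l 1, l 2)` and
`K = (-2,-2,-2)`. -/
noncomputable def fuj (l : Fin 3 → ℝ) : ℝ := sInf {t : ℝ | ∀ i, 0 ≤ t * l i - 2}

open Classical in
/-- The weak form of the conjecture for all smooth divisors of type `(1,1,1)`. -/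
theorem main (hBR : S_BR) (hR : S_R) (hCD : S_CD) (hQA : S_QA) (hQB : S_QB) (hCMP : S_CMP)
    (hNUL : S_NUL) (hRK : S_RK) (hDET : S_DET) (hPT : S_PT)
    (a : (Fin 3 → Fin 3) → ℤ) (ha : Smooth a) :
    (∃ P : Fin 3 → Fin 3 → ℂ, (∀ i, P i ≠ 0) ∧ tf a P = 0 ∧ InU a P) ∧
    ∀ l : Fin 3 → ℝ, (∀ i, 0 < l i) →
      ∀ ε : ℝ, 0 < ε → ∃ C : ℝ, ∀ T : ℝ, 1 ≤ T →
        {P : Fin 3 → Fin 3 → ℤ | (∀ i, Rep (P i)) ∧ tf a P = 0 ∧ InU a P ∧
          ∏ i, (nm (P i) : ℝ) ^ l i ≤ T}.Finite ∧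
        ({P : Fin 3 → Fin 3 → ℤ | (∀ i, Rep (P i)) ∧ tf a P = 0 ∧ InU a P ∧
          ∏ i, (nm (P i) : ℝ) ^ l i ≤ T}.ncard : ℝ) ≤ C * T ^ (fuj l + ε) := by
  refine ⟨hPT a (hDET a ha), ?_⟩
  intro l hl ε hε
  set F : Set ℝ := {t : ℝ | ∀ i, 0 ≤ t * l i - 2} with hF
  have hne : F.Nonempty := by
    obtain ⟨t, ht⟩ := (Set.finite_range fun i : Fin 3 => 2 / l i).bddAbove
    refine ⟨t, fun i => ?_⟩
    have h1 : 2 / l i ≤ t := ht ⟨i, rfl⟩
    rw [div_le_iff₀ (hl i)] at h1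
    linarith
  have hpos : ∀ t ∈ F, 0 ≤ t := by
    intro t ht
    by_contra hc
    push Not at hc
    have h1 := ht 0
    have h2 := hl 0
    nlinarith
  obtain ⟨t, htF, htlt⟩ := exists_lt_of_csInf_lt hne (show sInf F < sInf F + ε / 2 by linarith)
  have ht0 := hpos t htF
  have hfuj : fuj l = sInf F := rfl
  set ε' := ε / (t + 1) with hε'
  have hε'0 : 0 < ε' := by positivity
  obtain ⟨C, hC, hanti⟩ := anti hBR hR hCD hQA hQB hCMP hNUL hRK a ha ε' hε'0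
  refine ⟨C, ?_⟩
  intro T hT
  have hT0 : 0 < T := by linarith
  have hTt1 : (1 : ℝ) ≤ T ^ (t / 2) := Real.one_le_rpow hT (by positivity)
  have hB1 : 1 ≤ ⌊T ^ (t / 2)⌋₊ := by
    rw [Nat.one_le_floor_iff]
    exact hTt1
  obtain ⟨S, hS, hcard⟩ := hanti ⌊T ^ (t / 2)⌋₊ hB1
  have hsub : {P : Fin 3 → Fin 3 → ℤ | (∀ i, Rep (P i)) ∧ tf a P = 0 ∧ InU a P ∧
      ∏ i, (nm (P i) : ℝ) ^ l i ≤ T} ⊆ ↑S := by
    rintro P ⟨hRp, hq, hU, hH⟩
    have hP : ∀ i, Prim (P i) := fun i => (hRp i).1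
    apply hS P hP hq hU
    have hn : ∀ i, (1 : ℝ) ≤ (nm (P i) : ℝ) := fun i => by exact_mod_cast nm_pos (hP i)
    have hn0 : ∀ i, (0 : ℝ) < (nm (P i) : ℝ) := fun i => by linarith [hn i]
    have h1 : ∏ i, (nm (P i) : ℝ) ≤ T ^ (t / 2) := by
      have e1 : ∀ i, (nm (P i) : ℝ) ≤ ((nm (P i) : ℝ) ^ l i) ^ (t / 2) := by
        intro i
        rw [← Real.rpow_mul (hn0 i).le]
        have e2 : (1 : ℝ) ≤ l i * (t / 2) := by
          have := htF i
          linarith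
        calc (nm (P i) : ℝ) = (nm (P i) : ℝ) ^ (1 : ℝ) := (Real.rpow_one _).symm
          _ ≤ _ := Real.rpow_le_rpow_of_exponent_le (hn i) e2
      calc ∏ i, (nm (P i) : ℝ) ≤ ∏ i, ((nm (P i) : ℝ) ^ l i) ^ (t / 2) :=
            Finset.prod_le_prod (fun i _ => (hn0 i).le) fun i _ => e1 i
        _ = (∏ i, (nm (P i) : ℝ) ^ l i) ^ (t / 2) := by
            rw [Real.finsetProd_rpow _ _ (fun i _ => Real.rpow_nonneg (hn0 i).le _)]
        _ ≤ T ^ (t / 2) :=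
            Real.rpow_le_rpow (Finset.prod_nonneg fun i _ => Real.rpow_nonneg (hn0 i).le _) hH
              (by positivity)
    have h2 : ((∏ i, nm (P i) : ℤ) : ℝ) ≤ T ^ (t / 2) := by
      push_cast
      exact h1
    have h3 : 0 ≤ ∏ i, nm (P i) := Finset.prod_nonneg fun i _ => by
      have := nm_pos (hP i)
      omega
    obtain ⟨n, hn'⟩ := Int.eq_ofNat_of_zero_le h3
    rw [hn'] at h2 ⊢
    have h4 : (n : ℝ) ≤ T ^ (t / 2) := by exact_mod_cast h2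
    exact_mod_cast Nat.le_floor h4
  have hfinS : (↑S : Set (Fin 3 → Fin 3 → ℤ)).Finite := S.finite_toSet
  refine ⟨hfinS.subset hsub, ?_⟩
  have h5 : {P : Fin 3 → Fin 3 → ℤ | (∀ i, Rep (P i)) ∧ tf a P = 0 ∧ InU a P ∧
      ∏ i, (nm (P i) : ℝ) ^ l i ≤ T}.ncard ≤ S.card := by
    have := Set.ncard_le_ncard hsub hfinS
    rwa [Set.ncard_coe_finset] at this
  have h6 : ((⌊T ^ (t / 2)⌋₊ : ℕ) : ℝ) ≤ T ^ (t / 2) := Nat.floor_le (by positivity)
  calc ({P : Fin 3 → Fin 3 → ℤ | (∀ i, Rep (P i)) ∧ tf a P = 0 ∧ InU a P ∧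
      ∏ i, (nm (P i) : ℝ) ^ l i ≤ T}.ncard : ℝ) ≤ (S.card : ℝ) := by exact_mod_cast h5
    _ ≤ C * ((⌊T ^ (t / 2)⌋₊ : ℕ) : ℝ) ^ (2 + ε') := hcard
    _ ≤ C * (T ^ (t / 2)) ^ (2 + ε') := by
        apply mul_le_mul_of_nonneg_left _ hC.le
        exact Real.rpow_le_rpow (by positivity) h6 (by positivity)
    _ = C * T ^ (t / 2 * (2 + ε')) := by
        rw [← Real.rpow_mul hT0.le]
    _ ≤ C * T ^ (fuj l + ε) := by
        apply mul_le_mul_of_nonneg_left _ hC.le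
        apply Real.rpow_le_rpow_of_exponent_le hT
        rw [hfuj]
        have h7 : t * ε' ≤ ε := by
          rw [hε', mul_div_assoc', div_le_iff₀ (by positivity)]
          nlinarith
        nlinarith

end Pool.Agent.W978.QN
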